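import Pool.Agent.Work.MP_709d16_ag.ScrollInterp
import Pool.Agent.Work.MP_709d16_ag.DataVer
import Pool.Agent.Work.MP_709d16_ag.DataDP5
import Pool.Agent.Work.MP_709d16_ag.DataDP6
import Pool.Agent.Work.MP_709d16_ag.DataDP7
import Pool.Agent.Work.MP_709d16_ag.DataDP8a
import Pool.Agent.Work.MP_709d16_ag.DataDP8b
import Pool.Agent.Work.MP_709d16_ag.DataDP9
import Pool.Agent.Work.MP_709d16_ag.DataSc5
import Pool.Agent.Work.MP_709d16_ag.DataSc6

/-!
Interpolation for smooth surfaces of degree `d` in `ℙᵈ`.

By Coskun's classification a smooth surface of degree `d` in `ℙᵈ` is a del Pezzo surface, or a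
projection of the Veronese surface (`d = 4`), or a projection of a rational normal surface scroll of
degree `d` in `ℙ^(d+1)` (`d ≥ 5`).  The theorem proves interpolation for the family of each type with
`d ≥ 5`, and for the projected Veronese surfaces in `ℙ⁴`. (For the two remaining types, cubic surfaces
in `ℙ³` and complete intersections of two quadrics in `ℙ⁴`, interpolation is classical.)
-/

set_option autoImplicit false

namespace Pool.Agent.Results.MP_709d16_ag.Interpolation

open Pool.Agent.Work.MP_709d16_ag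

theorem result (K : Type*) [Field K] [CharZero K] [IsAlgClosed K] :
    -- projected Veronese surfaces in `ℙ⁴`
    Interpolation (toric K ![(0, 0), (0, 1), (0, 2), (1, 0), (1, 1), (2, 0)]) 4 21 ∧
    -- del Pezzo surfaces of degree 5
    Interpolation (quinticDelPezzo K) 5 35 ∧
    -- del Pezzo surfaces of degree 6
    Interpolation (toric K ![(0, 1), (0, 2), (1, 0), (1, 1), (1, 2), (2, 0), (2, 1)]) 6 46 ∧
    -- del Pezzo surfaces of degree 7
    Interpolation (toric K ![(0, 0), (0, 1), (0, 2), (1, 0), (1, 1), (1, 2), (2, 0), (2, 1)]) 7 59 ∧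
    -- del Pezzo surfaces of degree 8: the product of two lines
    Interpolation (toric K ![(0, 0), (0, 1), (0, 2), (1, 0), (1, 1), (1, 2), (2, 0), (2, 1), (2, 2)])
      8 74 ∧
    -- del Pezzo surfaces of degree 8: the plane blown up at a point
    Interpolation (toric K ![(0, 1), (0, 2), (0, 3), (1, 0), (1, 1), (1, 2), (2, 0), (2, 1), (3, 0)])
      8 74 ∧
    -- del Pezzo surfaces of degree 9
    Interpolation (toric K ![(0, 0), (0, 1), (0, 2), (0, 3), (1, 0), (1, 1), (1, 2), (2, 0), (2, 1),
      (3, 0)]) 9 91 ∧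
    -- projected scrolls in `ℙᵈ`, for every `d ≥ 5`
    ∀ d : ℕ, 5 ≤ d → Interpolation (scroll K (d / 2) (d - d / 2)) d (d ^ 2 + 3 * d - 5) := by
  refine ⟨Cert.Ver.interpolation K, Cert.DP5.interpolation K, Cert.DP6.interpolation K,
    Cert.DP7.interpolation K, Cert.DP8a.interpolation K, Cert.DP8b.interpolation K,
    Cert.DP9.interpolation K, ?_⟩
  intro d hd
  rcases (by omega : d = 5 ∨ d = 6 ∨ d = 7 ∨ 8 ≤ d) with rfl | rfl | rfl | h8
  · exact Cert.Sc5.interpolation K
  · exact Cert.Sc6.interpolation K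
  · exact ScrollCore.scroll_7
  · apply ScrollCore.scroll_ge8
    · omega
    · omega
    · omega
    · omega
    · obtain ⟨m, rfl⟩ : ∃ m, d = m + 8 := ⟨d - 8, by omega⟩
      have : m + 8 - 2 = m + 6 := rfl
      rw [this]
      have : (m + 8) ^ 2 + 3 * (m + 8) = (m + 6) * (m + 8 + 5) + 5 + 5 := by ring
      omega

end Pool.Agent.Results.MP_709d16_ag.Interpolation
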